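import Mathlib

/-!
Helper file: 2-adic analysis of the power series `G` with `G(x) = (1+x)^1024 (1-x)^(-1023) G(x^2)`.
-/

open PowerSeries

namespace Pool.Agent.Helper19_BinPart

/-- even/odd section operators -/
noncomputable def sec (c : ℕ) : ℤ⟦X⟧ →+ ℤ⟦X⟧ where
  toFun f := PowerSeries.mk fun n => coeff (2 * n + c) f
  map_zero' := by ext n; simp
  map_add' f g := by ext n; simp

@[simp] lemma coeff_sec (c n : ℕ) (f : ℤ⟦X⟧) : coeff n (sec c f) = coeff (2 * n + c) f := by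
  simp [sec]

/-- `f(x) ↦ f(x^2)` -/
noncomputable def dbl : ℤ⟦X⟧ →+* ℤ⟦X⟧ :=
  (PowerSeries.expand (R := ℤ) 2 two_ne_zero).toRingHom

lemma dbl_X : dbl X = X ^ 2 := PowerSeries.expand_X 2 two_ne_zero

lemma coeff_dbl (f : ℤ⟦X⟧) (n : ℕ) :
    coeff n (dbl f) = if 2 ∣ n then coeff (n / 2) f else 0 :=
  PowerSeries.coeff_expand 2 two_ne_zero f

lemma coeff_dbl_even (f : ℤ⟦X⟧) (n : ℕ) : coeff (2 * n) (dbl f) = coeff n f := by
  rw [coeff_dbl, if_pos (by simp), Nat.mul_div_cancel_left _ two_pos]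

lemma coeff_dbl_odd (f : ℤ⟦X⟧) (n : ℕ) : coeff (2 * n + 1) (dbl f) = 0 := by
  rw [coeff_dbl, if_neg (by omega)]

lemma decomp (f : ℤ⟦X⟧) : f = dbl (sec 0 f) + X * dbl (sec 1 f) := by
  ext n
  rcases Nat.even_or_odd' n with ⟨k, rfl | rfl⟩
  · rw [map_add, coeff_dbl_even, coeff_sec]
    rcases k with _ | k
    · simp
    · rw [show 2 * (k + 1) = (2 * k + 1) + 1 by ring, PowerSeries.coeff_succ_X_mul, coeff_dbl_odd]
      simp
  · rw [map_add, coeff_dbl_odd, PowerSeries.coeff_succ_X_mul, coeff_dbl_even, coeff_sec]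
    simp

lemma sec_zero_dbl (f : ℤ⟦X⟧) : sec 0 (dbl f) = f := by
  ext n; rw [coeff_sec, Nat.add_zero, coeff_dbl_even]

lemma sec_one_dbl (f : ℤ⟦X⟧) : sec 1 (dbl f) = 0 := by
  ext n; rw [coeff_sec, coeff_dbl_odd]; simp

lemma sec_one_X_dbl (f : ℤ⟦X⟧) : sec 1 (X * dbl f) = f := by
  ext n; rw [coeff_sec, PowerSeries.coeff_succ_X_mul, coeff_dbl_even]

lemma sec_zero_X_dbl (f : ℤ⟦X⟧) : sec 0 (X * dbl f) = 0 := by
  ext n
  rw [coeff_sec]
  rcases n with _ | k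
  · simp
  · rw [show 2 * (k + 1) + 0 = (2 * k + 1) + 1 by ring, PowerSeries.coeff_succ_X_mul, coeff_dbl_odd]
    simp

lemma sec_zero_mul_dbl (f h : ℤ⟦X⟧) : sec 0 (f * dbl h) = sec 0 f * h := by
  conv_lhs => rw [decomp f]
  rw [add_mul, mul_assoc, ← map_mul, ← map_mul, map_add, sec_zero_dbl, sec_zero_X_dbl, add_zero]

lemma sec_one_mul_dbl (f h : ℤ⟦X⟧) : sec 1 (f * dbl h) = sec 1 f * h := by
  conv_lhs => rw [decomp f]
  rw [add_mul, mul_assoc, ← map_mul, ← map_mul, map_add, sec_one_dbl, sec_one_X_dbl, zero_add]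

/-- `Z = 1/(1-x)` -/
noncomputable def Z : ℤ⟦X⟧ := PowerSeries.mk fun _ => 1

lemma one_sub_X_mul_Z : (1 - X) * Z = 1 := by
  rw [mul_comm]; exact PowerSeries.mk_one_mul_one_sub_eq_one ℤ

lemma Z_mul : Z * (1 - X) = 1 := by rw [mul_comm]; exact one_sub_X_mul_Z

/-- the kernel `g = (1+x)^1024 (1-x)^(-1023)` -/
noncomputable def g : ℤ⟦X⟧ := (1 + X) ^ 1024 * Z ^ 1023

/-- `E = ((1+x)/(1-x))^1024` -/
noncomputable def E : ℤ⟦X⟧ := ((1 + X) * Z) ^ 1024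

lemma g_mul_Z : g * Z = E := by
  unfold g E; rw [mul_pow, mul_assoc, ← pow_succ]

lemma g_eq : g = (1 - X) * E := by
  rw [← g_mul_Z]
  linear_combination (-g) * one_sub_X_mul_Z

lemma X_mul_Z : X * Z = Z - 1 := by
  linear_combination (-1 : ℤ⟦X⟧) * one_sub_X_mul_Z

lemma dbl_Z_mul : (1 - X ^ 2) * dbl Z = 1 := by
  have := congrArg dbl one_sub_X_mul_Z
  rwa [map_mul, map_sub, map_one, dbl_X] at this

lemma dbl_Z : Z = (1 + X) * dbl Z := by
  calc Z = Z * ((1 - X ^ 2) * dbl Z) := by rw [dbl_Z_mul, mul_one]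
    _ = (Z * (1 - X)) * ((1 + X) * dbl Z) := by ring
    _ = _ := by rw [Z_mul, one_mul]

lemma Z_sq : Z ^ 2 = 2 * dbl Z * Z - dbl Z := by
  have h2 := dbl_Z
  have h1 := dbl_Z_mul
  generalize dbl Z = D at h1 h2
  rw [h2]
  linear_combination (-D) * h1

lemma sec_Z_rec (c : ℕ) (hc : c = 0 ∨ c = 1) (e : ℕ) :
    sec c (Z ^ (e + 2)) = Z * (2 * sec c (Z ^ (e + 1)) - sec c (Z ^ e)) := by
  have h : Z ^ (e + 2) = (2 * Z ^ (e + 1) - Z ^ e) * dbl Z := by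
    rw [pow_add, Z_sq]; ring
  rw [h]
  rcases hc with rfl | rfl
  · rw [sec_zero_mul_dbl, map_sub, mul_comm, two_mul, two_mul, map_add]
  · rw [sec_one_mul_dbl, map_sub, mul_comm, two_mul, two_mul, map_add]

lemma sec_zero_one : sec 0 (1 : ℤ⟦X⟧) = 1 := by
  have := sec_zero_dbl 1; simpa using this

lemma sec_one_one : sec 1 (1 : ℤ⟦X⟧) = 0 := by
  have := sec_one_dbl 1; simpa using this

lemma sec_zero_Z : sec 0 Z = Z := by
  rw [Z]; ext n; simp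

lemma sec_one_Z : sec 1 Z = Z := by
  rw [Z]; ext n; simp

lemma sec_zero_one_sub_X : sec 0 (1 - X : ℤ⟦X⟧) = 1 := by
  rw [map_sub, sec_zero_one]
  have := sec_zero_X_dbl 1
  simp at this
  rw [this, sub_zero]

lemma sec_one_one_sub_X : sec 1 (1 - X : ℤ⟦X⟧) = -1 := by
  rw [map_sub, sec_one_one]
  have := sec_one_X_dbl 1
  simp at this
  rw [this, zero_sub]

/-- the filtered pieces: additive span of `Z^i`, `i ≤ d` -/
noncomputable def V (d : ℕ) : AddSubgroup ℤ⟦X⟧ := AddSubgroup.closure ((fun i => Z ^ i) '' Set.Iic d)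

/-- all polynomials in `Z` -/
noncomputable def W : Subring ℤ⟦X⟧ := (Polynomial.eval₂RingHom (Int.castRingHom ℤ⟦X⟧) Z).range

lemma Z_mem_W : Z ∈ W := ⟨Polynomial.X, by simp⟩

lemma Zpow_mem_V {i d : ℕ} (h : i ≤ d) : Z ^ i ∈ V d :=
  AddSubgroup.subset_closure ⟨i, h, rfl⟩

lemma V_mono {d e : ℕ} (h : d ≤ e) : V d ≤ V e :=
  AddSubgroup.closure_mono (Set.image_mono (Set.Iic_subset_Iic.mpr h))

lemma V_le_W {d : ℕ} {f : ℤ⟦X⟧} (hf : f ∈ V d) : f ∈ W := by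
  unfold V at hf
  induction hf using AddSubgroup.closure_induction with
  | mem x hx =>
    obtain ⟨i, _, rfl⟩ := hx
    exact W.pow_mem Z_mem_W i
  | zero => exact W.zero_mem
  | add x y _ _ hx hy => exact W.add_mem hx hy
  | neg x _ hx => exact W.neg_mem hx

lemma exists_V_of_mem_W {f : ℤ⟦X⟧} (hf : f ∈ W) : ∃ d, f ∈ V d := by
  obtain ⟨p, rfl⟩ := hf
  refine ⟨p.natDegree, ?_⟩
  rw [Polynomial.coe_eval₂RingHom, Polynomial.eval₂_eq_sum_range]
  refine AddSubgroup.sum_mem _ fun i hi => ?_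
  have : (Int.castRingHom ℤ⟦X⟧) (p.coeff i) * Z ^ i = (p.coeff i) • Z ^ i := by
    rw [zsmul_eq_mul]; rfl
  rw [this]
  exact AddSubgroup.zsmul_mem _ (Zpow_mem_V (by simpa [Nat.lt_succ_iff] using hi)) _

lemma mul_Z_mem {d : ℕ} {f : ℤ⟦X⟧} (hf : f ∈ V d) : Z * f ∈ V (d + 1) := by
  unfold V at hf
  induction hf using AddSubgroup.closure_induction with
  | mem x hx =>
    obtain ⟨i, hi, rfl⟩ := hx
    have : Z * Z ^ i = Z ^ (i + 1) := by ring
    simp only [this]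
    exact Zpow_mem_V (Nat.succ_le_succ hi)
  | zero => rw [mul_zero]; exact AddSubgroup.zero_mem _
  | add x y _ _ hx hy => rw [mul_add]; exact AddSubgroup.add_mem _ hx hy
  | neg x _ hx => rw [mul_neg]; exact AddSubgroup.neg_mem _ hx

lemma sec_Zpow_mem (c : ℕ) (hc : c = 0 ∨ c = 1) (e : ℕ) : sec c (Z ^ e) ∈ V e := by
  induction e using Nat.strong_induction_on with
  | _ e ih =>
    rcases e with _ | _ | e
    · rcases hc with rfl | rfl
      · rw [pow_zero, sec_zero_one]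
        have := Zpow_mem_V (le_refl 0)
        simpa using this
      · rw [pow_zero, sec_one_one]; exact AddSubgroup.zero_mem _
    · rcases hc with rfl | rfl
      · rw [zero_add, pow_one, sec_zero_Z]
        have := Zpow_mem_V (le_refl 1)
        simpa using this
      · rw [zero_add, pow_one, sec_one_Z]
        have := Zpow_mem_V (le_refl 1)
        simpa using this
    · rw [sec_Z_rec c hc]
      apply mul_Z_mem
      refine AddSubgroup.sub_mem _ ?_ ?_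
      · rw [two_mul]
        exact AddSubgroup.add_mem _ (ih _ (by omega)) (ih _ (by omega))
      · exact V_mono (Nat.le_succ e) (ih _ (by omega))

lemma sec_mem_V (c : ℕ) (hc : c = 0 ∨ c = 1) {d : ℕ} {f : ℤ⟦X⟧} (hf : f ∈ V d) :
    sec c f ∈ V d := by
  unfold V at hf
  induction hf using AddSubgroup.closure_induction with
  | mem x hx =>
    obtain ⟨i, hi, rfl⟩ := hx
    exact V_mono hi (sec_Zpow_mem c hc i)
  | zero => rw [map_zero]; exact AddSubgroup.zero_mem _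
  | add x y _ _ hx hy =>
    rw [map_add]
    exact AddSubgroup.add_mem _ hx hy
  | neg x _ hx => rw [map_neg]; exact AddSubgroup.neg_mem _ hx

lemma sec_mem_W (c : ℕ) (hc : c = 0 ∨ c = 1) {f : ℤ⟦X⟧} (hf : f ∈ W) : sec c f ∈ W := by
  obtain ⟨d, hd⟩ := exists_V_of_mem_W hf
  exact V_le_W (sec_mem_V c hc hd)

/-- `E = 1 + 2^11 Z e'`, with `e'` a polynomial in `Z`. -/
lemma E_struct : ∃ e ∈ W, E = 1 + 2 ^ 11 * (Z * e) := by
  have hE : E = (1 - 4 * (Z * (1 - Z))) ^ (2 ^ 9) := by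
    unfold E
    have h : (1 + X) * Z = 2 * Z - 1 := by
      linear_combination (-1 : ℤ⟦X⟧) * one_sub_X_mul_Z
    rw [h, show (1024 : ℕ) = 2 * 2 ^ 9 by norm_num, pow_mul]
    congr 1
    ring
  have key : ∀ i : ℕ, ∃ e ∈ W, (1 - 4 * (Z * (1 - Z))) ^ (2 ^ i) = 1 + 2 ^ (i + 2) * (Z * e) := by
    intro i
    induction i with
    | zero =>
      refine ⟨-(1 - Z), W.neg_mem (W.sub_mem W.one_mem Z_mem_W), ?_⟩
      ring
    | succ i ih =>
      obtain ⟨e, he, h⟩ := ih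
      refine ⟨e + 2 ^ (i + 1) * (Z * e ^ 2), ?_, ?_⟩
      · refine W.add_mem he (W.mul_mem (W.pow_mem ?_ _) (W.mul_mem Z_mem_W (W.pow_mem he _)))
        have := W.add_mem W.one_mem W.one_mem
        rwa [one_add_one_eq_two] at this
      · rw [pow_succ 2 i, pow_mul, h]
        ring
  obtain ⟨e, he, h⟩ := key 9
  exact ⟨e, he, by rw [hE, h]⟩

/-- the operators `L_c h = sec_c (g h)` -/
noncomputable def L (c : ℕ) : ℤ⟦X⟧ →+ ℤ⟦X⟧ := (sec c).comp (AddMonoidHom.mulLeft g)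

lemma L_apply (c : ℕ) (h : ℤ⟦X⟧) : L c h = sec c (g * h) := rfl

lemma L_mul_int (c : ℕ) (a : ℤ) (h : ℤ⟦X⟧) : L c ((a : ℤ⟦X⟧) * h) = (a : ℤ⟦X⟧) * L c h := by
  rw [← zsmul_eq_mul, map_zsmul, zsmul_eq_mul]

lemma sec_mul_int (c : ℕ) (a : ℤ) (h : ℤ⟦X⟧) : sec c ((a : ℤ⟦X⟧) * h) = (a : ℤ⟦X⟧) * sec c h := by
  rw [← zsmul_eq_mul, map_zsmul, zsmul_eq_mul]

lemma two_pow_cast (k : ℕ) : (2 ^ k : ℤ⟦X⟧) = (((2 : ℤ) ^ k : ℤ) : ℤ⟦X⟧) := by push_cast; rfl

lemma L_two_pow (c k : ℕ) (h : ℤ⟦X⟧) : L c (2 ^ k * h) = 2 ^ k * L c h := by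
  rw [two_pow_cast, L_mul_int]

lemma sec_two_pow (c k : ℕ) (h : ℤ⟦X⟧) : sec c (2 ^ k * h) = 2 ^ k * sec c h := by
  rw [two_pow_cast, sec_mul_int]

/-- structure of `L c` on powers of `Z` -/
lemma L_Zpow_succ (c : ℕ) (hc : c = 0 ∨ c = 1) (i : ℕ) :
    ∃ q ∈ V i, ∃ r ∈ W, L c (Z ^ (i + 1)) = q + 2 ^ 11 * r := by
  obtain ⟨e, he, hE⟩ := E_struct
  refine ⟨sec c (Z ^ i), sec_Zpow_mem c hc i, sec c (Z * e * Z ^ i),
    sec_mem_W c hc (W.mul_mem (W.mul_mem Z_mem_W he) (W.pow_mem Z_mem_W _)), ?_⟩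
  rw [L_apply, pow_succ', ← mul_assoc, g_mul_Z, hE, ← sec_two_pow, ← map_add]
  congr 1
  ring

lemma L_one (c : ℕ) (hc : c = 0 ∨ c = 1) :
    ∃ q ∈ V 0, ∃ r ∈ W, L c 1 = q + 2 ^ 11 * r := by
  obtain ⟨e, he, hE⟩ := E_struct
  refine ⟨sec c (1 - X), ?_, sec c e, sec_mem_W c hc he, ?_⟩
  · have h1 : (1 : ℤ⟦X⟧) ∈ V 0 := by
      have := Zpow_mem_V (le_refl 0)
      simpa using this
    rcases hc with rfl | rfl
    · rw [sec_zero_one_sub_X]; exact h1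
    · rw [sec_one_one_sub_X]; exact AddSubgroup.neg_mem _ h1
  · rw [L_apply, mul_one, g_eq, hE, ← sec_two_pow, ← map_add]
    congr 1
    linear_combination (2 ^ 11 * e) * one_sub_X_mul_Z

lemma L_mem_V (c : ℕ) (hc : c = 0 ∨ c = 1) (d : ℕ) {h : ℤ⟦X⟧} (hh : h ∈ V d) :
    ∃ q ∈ V (d - 1), ∃ r ∈ W, L c h = q + 2 ^ 11 * r := by
  unfold V at hh
  induction hh using AddSubgroup.closure_induction with
  | mem x hx =>
    obtain ⟨i, hi, rfl⟩ := hx
    rcases i with _ | i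
    · obtain ⟨q, hq, r, hr, h⟩ := L_one c hc
      refine ⟨q, V_mono (Nat.zero_le _) hq, r, hr, ?_⟩
      simp only [pow_zero]
      exact h
    · obtain ⟨q, hq, r, hr, h⟩ := L_Zpow_succ c hc i
      refine ⟨q, V_mono ?_ hq, r, hr, h⟩
      have : i + 1 ≤ d := hi
      omega
  | zero => exact ⟨0, AddSubgroup.zero_mem _, 0, W.zero_mem, by simp⟩
  | add x y _ _ hx hy =>
    obtain ⟨q, hq, r, hr, h⟩ := hx
    obtain ⟨q', hq', r', hr', h'⟩ := hy
    refine ⟨q + q', AddSubgroup.add_mem _ hq hq', r + r', W.add_mem hr hr', ?_⟩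
    rw [map_add, h, h']; ring
  | neg x _ hx =>
    obtain ⟨q, hq, r, hr, h⟩ := hx
    refine ⟨-q, AddSubgroup.neg_mem _ hq, -r, W.neg_mem hr, ?_⟩
    rw [map_neg, h]; ring

lemma L_mem_W (c : ℕ) (hc : c = 0 ∨ c = 1) {h : ℤ⟦X⟧} (hh : h ∈ W) : L c h ∈ W := by
  obtain ⟨d, hd⟩ := exists_V_of_mem_W hh
  obtain ⟨q, hq, r, hr, e⟩ := L_mem_V c hc d hd
  rw [e]
  refine W.add_mem (V_le_W hq) (W.mul_mem (W.pow_mem ?_ _) hr)
  have := W.add_mem W.one_mem W.one_mem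
  rwa [one_add_one_eq_two] at this

lemma coeff_zero_g : coeff 0 g = 1 := by
  simp [g, Z]

lemma coeff_zero_L (h : ℤ⟦X⟧) : coeff 0 (L 0 h) = coeff 0 h := by
  rw [L_apply, coeff_sec]
  have := coeff_zero_g
  simp only [PowerSeries.coeff_zero_eq_constantCoeff, mul_zero, add_zero, map_mul] at this ⊢
  rw [this, one_mul]

/-- `Small J h`: for all large `b`, `L_0^b h ≡ 0 mod 2^J`. -/
def Small (J : ℕ) (h : ℤ⟦X⟧) : Prop := ∃ b0 : ℕ, ∀ b, b0 ≤ b → ∃ k : ℤ⟦X⟧, (L 0)^[b] h = 2 ^ J * k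

lemma iterate_L_add (b : ℕ) (x y : ℤ⟦X⟧) : (L 0)^[b] (x + y) = (L 0)^[b] x + (L 0)^[b] y :=
  iterate_map_add (L 0) b x y

lemma iterate_L_two_pow (b k : ℕ) (x : ℤ⟦X⟧) : (L 0)^[b] (2 ^ k * x) = 2 ^ k * (L 0)^[b] x := by
  induction b with
  | zero => rfl
  | succ b ih => rw [Function.iterate_succ_apply', Function.iterate_succ_apply', ih, L_two_pow]

lemma Small.add {J : ℕ} {x y : ℤ⟦X⟧} (hx : Small J x) (hy : Small J y) : Small J (x + y) := by
  obtain ⟨b, hb⟩ := hx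
  obtain ⟨c, hc⟩ := hy
  refine ⟨max b c, fun d hd => ?_⟩
  obtain ⟨k, hk⟩ := hb d (le_trans (le_max_left _ _) hd)
  obtain ⟨l, hl⟩ := hc d (le_trans (le_max_right _ _) hd)
  exact ⟨k + l, by rw [iterate_L_add, hk, hl]; ring⟩

lemma Small.of_L {J : ℕ} {x : ℤ⟦X⟧} (hx : Small J (L 0 x)) : Small J x := by
  obtain ⟨b, hb⟩ := hx
  refine ⟨b + 1, fun d hd => ?_⟩
  obtain ⟨k, hk⟩ := hb (d - 1) (by omega)
  refine ⟨k, ?_⟩
  rw [← hk, ← Function.iterate_succ_apply]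
  congr 2
  omega

lemma Small.mul {J : ℕ} {x : ℤ⟦X⟧} (hx : Small J x) : Small (J + 1) (2 ^ 11 * x) := by
  obtain ⟨b, hb⟩ := hx
  refine ⟨b, fun d hd => ?_⟩
  obtain ⟨k, hk⟩ := hb d hd
  refine ⟨2 ^ 10 * k, ?_⟩
  rw [iterate_L_two_pow, hk]
  ring

lemma int_mem_V (a : ℤ) : (a : ℤ⟦X⟧) ∈ V 0 := by
  have h1 : (1 : ℤ⟦X⟧) ∈ V 0 := by
    have := Zpow_mem_V (le_refl 0)
    simpa using this
  have := AddSubgroup.zsmul_mem _ h1 a
  rwa [zsmul_eq_mul, mul_one] at this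

lemma V_zero_eq {h : ℤ⟦X⟧} (hh : h ∈ V 0) : ∃ a : ℤ, h = (a : ℤ⟦X⟧) := by
  unfold V at hh
  induction hh using AddSubgroup.closure_induction with
  | mem x hx =>
    obtain ⟨i, hi, rfl⟩ := hx
    have : i = 0 := Nat.le_zero.mp hi
    subst this
    exact ⟨1, by simp⟩
  | zero => exact ⟨0, by simp⟩
  | add x y _ _ hx hy =>
    obtain ⟨a, rfl⟩ := hx
    obtain ⟨b, rfl⟩ := hy
    exact ⟨a + b, by push_cast; rfl⟩
  | neg x _ hx =>
    obtain ⟨a, rfl⟩ := hx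
    exact ⟨-a, by push_cast; rfl⟩

lemma coeff_zero_intCast (a : ℤ) : coeff 0 ((a : ℤ⟦X⟧)) = a := by
  simp

/-- Key contraction: elements of `ℤ[1/(1-x)]` with zero constant coefficient die 2-adically. -/
lemma small_of_mem (J : ℕ) : ∀ h ∈ W, coeff 0 h = 0 → Small J h := by
  induction J with
  | zero => exact fun h _ _ => ⟨0, fun b _ => ⟨(L 0)^[b] h, by simp⟩⟩
  | succ J ihJ =>
    have key : ∀ d : ℕ, ∀ h ∈ V d, coeff 0 h = 0 → Small (J + 1) h := by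
      intro d
      induction d with
      | zero =>
        intro h hh h0
        obtain ⟨a, rfl⟩ := V_zero_eq hh
        rw [coeff_zero_intCast] at h0
        subst h0
        refine ⟨0, fun b _ => ⟨0, ?_⟩⟩
        rw [Int.cast_zero, iterate_map_zero, mul_zero]
      | succ d ihd =>
        intro h hh h0
        obtain ⟨q, hq, r, hr, e⟩ := L_mem_V 0 (Or.inl rfl) (d + 1) hh
        rw [Nat.add_sub_cancel] at hq
        apply Small.of_L
        have h0' : coeff 0 (L 0 h) = 0 := by rw [coeff_zero_L, h0]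
        have e2 : L 0 h = (q - ((coeff 0 q : ℤ) : ℤ⟦X⟧)) + 2 ^ 11 * (r - ((coeff 0 r : ℤ) : ℤ⟦X⟧)) := by
          have h3 : coeff 0 q + 2 ^ 11 * coeff 0 r = 0 := by
            rw [e, map_add, two_pow_cast, ← zsmul_eq_mul, map_zsmul] at h0'
            simpa using h0'
          have h4 : ((coeff 0 q : ℤ) : ℤ⟦X⟧) + 2 ^ 11 * ((coeff 0 r : ℤ) : ℤ⟦X⟧) = 0 := by
            rw [two_pow_cast]
            rw [← Int.cast_mul, ← Int.cast_add, h3, Int.cast_zero]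
          rw [e]
          linear_combination h4
        rw [e2]
        refine Small.add (ihd _ ?_ ?_) (Small.mul (ihJ _ ?_ ?_))
        · exact AddSubgroup.sub_mem _ hq (V_mono (Nat.zero_le _) (int_mem_V _))
        · rw [map_sub, coeff_zero_intCast, sub_self]
        · exact W.sub_mem hr (V_le_W (int_mem_V _))
        · rw [map_sub, coeff_zero_intCast, sub_self]
    intro h hh h0
    obtain ⟨d, hd⟩ := exists_V_of_mem_W hh
    exact key d h hd h0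

end Pool.Agent.Helper19_BinPart
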