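import Pool.Agent.Helper19_BinPart.Basic

/-!
Exact evaluation of the first coefficients of `F = (1-x) G`.
-/

open PowerSeries

namespace Pool.Agent.Helper19_BinPart

/-- the first coefficients of `((1+x)/(1-x))^1023` -/
def rhoList : List ℤ := [1, 2046, 2093058, 1427466238, 730150027266, 298778247636990, 101883869210898434, 29779412899533768702, 7616161261957669519362, 1731430488650632063666174, 354256770906928886361714690, 65893176013634032471331022846, 11235081724300358310433907490818, 1768284771758052544423458412881918, 258431818856976222156437222831878146, 35251632605560413681009870858226010110, 4508028647277537753653524118565628936194, 542585610989348567657666205567538246682622, 61677904919031311668424639609837794598645762, 6642221969459204347328789103538040836790675454, 679554817590103732912236707467590431618824880130, 66214064714608188686715978593888440279429272741886, 6158525795565461642167233497147504573652030387613698, 547901490134171360514633946552794174562518355990661118, 46714247349250710157044530574331421927313870876059172866, 3823598072433601556904197845434112141171964709384194115582, 300930876851366569325759917711229899806311358780811022331906,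 22807413481100253365904718391974526955823790340121257649776638, 1666849720897473354194411556708584790321801397543442651357986818, 117620356176559316880091223186977510111248720748726446159827068926, 8023264017647516386352802872138127535391463103034184174574806888450, 529645457110836733763463139415065525329166442635795286713506125121534, 33871728224040668211613630229043381520298008922685255691908461756416002, 2100544695622958881809338024422564412782270618652598266652510043742603262, 126435245369051269810725801003996946375328683001433587698622841772752105474]

/-- the first coefficients of `F` -/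
def fList : List ℤ := [1, 2046, 2095104, 1431652354, 734434519038, 301703130142722, 103382142772525056, 30393706813584865278, 7826148395871740098560, 1792987184082868316903426, 370053941009334565562861568, 69498502556076008514990872574, 11975994126660667417036494202882, 1906772590454961178515360681961470, 282171979585383516456660686870218752, 39010097073069881288222280595085887490, 5060831610245772717227706243186831484926, 618510808557119015381050307587534333843458, 71459120286749687661175594004236246489565184, 7828788454766664510125543336669729980781041662, 815570943529979260100200581765790386638121662466, 80992610980309810912443315641930604847862347302910, 7684763735251086457781493484777839997701364584400896, 698094836702505508087985761558644099593082351823464450, 60830020455170898625084904184427095576710075279574251520, 5093248539761871607334101426635844929660012101800088299518, 410430550740886086303944499407510666180263202864649966139392, 31878246938029580708176590458825123735513986578506680822589442, 2389760540291683980667499883693022241801672727801737405866563582, 173130255285929105874598855495169861661935926261398725396921571330,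 12135733165800140159034754200455996219068689467628699799511736776704, 823977750458511832935971246931859815144719741170935610699342570158078, 54246617086529346964311454447968468904438768055860066599608888780912640, 3466259004327298420522840332564855050267861022446189177191341576819218434, 215168488863669165214515247286661365967788112762740331096828664086544779264]

/-- `rhoList` as a function -/
def rhoF (k : ℕ) : ℤ := rhoList.getD k 0

/-- `fList` as a function -/
def fF (k : ℕ) : ℤ := fList.getD k 0

lemma rho_check0 : rhoF 0 = 1 ∧ rhoF 1 = 2046 := by decide +kernel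

lemma rho_check : ∀ k : ℕ, k < 33 →
    ((k : ℤ) + 2) * rhoF (k + 2) = 2046 * rhoF (k + 1) + (k : ℤ) * rhoF k := by
  decide +kernel

lemma f_check0 : fF 0 = 1 := by decide +kernel

lemma f_check : ∀ n : ℕ, n < 34 → fF (n + 1) = ∑ j ∈ Finset.range ((n + 1) / 2 + 1), rhoF (n + 1 - 2 * j) * fF j := by
  decide +kernel

lemma f_34 : (2 : ℤ) ^ 24 ∣ fF 34 - 2 ^ 11 := by decide +kernel

/-- `ρ = ((1+x)/(1-x))^1023` -/
noncomputable def rho : ℤ⟦X⟧ := ((1 + X) * Z) ^ 1023

lemma deriv_Z : d⁄dX ℤ Z = Z ^ 2 := by
  have h := congrArg (d⁄dX ℤ) one_sub_X_mul_Z
  rw [Derivation.leibniz, map_sub] at h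
  simp only [Derivation.map_one_eq_zero, PowerSeries.derivative_X, smul_eq_mul, zero_sub] at h
  linear_combination Z * h - (d⁄dX ℤ Z) * one_sub_X_mul_Z

lemma rho_ode : (1 - X ^ 2) * d⁄dX ℤ rho = 2046 * rho := by
  have hW : (1 + X) * Z = 2 * Z - 1 := by
    linear_combination (-1 : ℤ⟦X⟧) * one_sub_X_mul_Z
  have hY : d⁄dX ℤ ((1 + X) * Z) = 2 * Z ^ 2 := by
    rw [hW, map_sub, Derivation.map_one_eq_zero, sub_zero, two_mul, map_add, deriv_Z]; ring
  have hd : d⁄dX ℤ rho = 1023 * (((1 + X) * Z) ^ 1022 * (2 * Z ^ 2)) := by
    rw [rho, Derivation.leibniz_pow, hY]
    simp only [smul_eq_mul, nsmul_eq_mul]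
    norm_num
  have hr : rho = ((1 + X) * Z) ^ 1022 * ((1 + X) * Z) := by
    rw [rho, show (1023 : ℕ) = 1022 + 1 by norm_num, pow_succ]
  rw [hd, hr]
  generalize ((1 + X) * Z) ^ 1022 = P
  linear_combination (2046 * P * (1 + X) * Z) * one_sub_X_mul_Z

lemma coeff_rho_zero : coeff 0 rho = 1 := by
  simp [rho, Z]

lemma coeff_rho_rec (k : ℕ) :
    ((k : ℤ) + 2) * coeff (k + 2) rho = 2046 * coeff (k + 1) rho + (k : ℤ) * coeff k rho := by
  have h := congrArg (coeff (k + 1)) rho_ode
  rw [sub_mul, one_mul, map_sub, PowerSeries.coeff_derivative] at h
  have h2 : coeff (k + 1) (X ^ 2 * d⁄dX ℤ rho) = (k : ℤ) * coeff k rho := by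
    rcases k with _ | k
    · rw [PowerSeries.coeff_X_pow_mul']
      simp
    · rw [show k + 1 + 1 = k + 2 by ring, PowerSeries.coeff_X_pow_mul, PowerSeries.coeff_derivative]
      push_cast
      ring
  have h3 : coeff (k + 1) (2046 * rho) = 2046 * coeff (k + 1) rho := by
    have : (2046 : ℤ⟦X⟧) * rho = (2046 : ℤ) • rho := by rw [zsmul_eq_mul]; push_cast; rfl
    rw [this, map_zsmul, zsmul_eq_mul]; rfl
  rw [h2, h3] at h
  push_cast at h
  linear_combination h

lemma coeff_rho_one : coeff 1 rho = 2046 := by
  have h := congrArg (coeff 0) rho_ode
  rw [sub_mul, one_mul, map_sub, PowerSeries.coeff_derivative] at h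
  have h2 : coeff 0 (X ^ 2 * d⁄dX ℤ rho) = 0 := by
    rw [PowerSeries.coeff_X_pow_mul']; simp
  have h3 : coeff 0 (2046 * rho) = 2046 * coeff 0 rho := by
    have : (2046 : ℤ⟦X⟧) * rho = (2046 : ℤ) • rho := by rw [zsmul_eq_mul]; push_cast; rfl
    rw [this, map_zsmul, zsmul_eq_mul]; rfl
  rw [h2, h3, coeff_rho_zero] at h
  simpa using h

lemma coeff_rho_eq : ∀ k ≤ 34, coeff k rho = rhoF k := by
  intro k
  induction k using Nat.strong_induction_on with
  | _ k ih =>
    intro hk
    rcases k with _ | _ | k
    · rw [coeff_rho_zero, rho_check0.1]
    · rw [zero_add, coeff_rho_one, rho_check0.2]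
    · have h1 := coeff_rho_rec k
      have h2 := rho_check k (by omega)
      rw [ih (k + 1) (by omega) (by omega), ih k (by omega) (by omega), ← h2] at h1
      exact mul_left_cancel₀ (by positivity) h1

lemma coeff_mul_dbl (A B : ℤ⟦X⟧) (n : ℕ) :
    coeff n (A * dbl B) = ∑ j ∈ Finset.range (n / 2 + 1), coeff (n - 2 * j) A * coeff j B := by
  rw [PowerSeries.coeff_mul, Finset.Nat.sum_antidiagonal_eq_sum_range_succ
    (fun i j => coeff i A * coeff j (dbl B)), ← Finset.sum_range_reflect]
  have h : ∀ j ∈ Finset.range (n + 1), (coeff (n + 1 - 1 - j) A * coeff (n - (n + 1 - 1 - j)) (dbl B))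
      = if 2 ∣ j then coeff (n - j) A * coeff (j / 2) B else 0 := by
    intro j hj
    have hj' : j < n + 1 := Finset.mem_range.mp hj
    rw [show n + 1 - 1 - j = n - j by omega, show n - (n - j) = j by omega, coeff_dbl]
    split_ifs <;> simp
  rw [Finset.sum_congr rfl h, ← Finset.sum_filter]
  symm
  refine Finset.sum_bij (fun j _ => 2 * j) ?_ ?_ ?_ ?_
  · intro j hj
    have := Finset.mem_range.mp hj
    simp only [Finset.mem_filter, Finset.mem_range]
    exact ⟨by omega, by simp⟩
  · intro a _ b _ h
    simpa using h
  · intro b hb
    simp only [Finset.mem_filter, Finset.mem_range] at hb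
    obtain ⟨hb1, c, rfl⟩ := hb
    exact ⟨c, Finset.mem_range.mpr (by omega), rfl⟩
  · intro j hj
    rw [Nat.mul_div_cancel_left _ two_pos]

lemma coeff_F_eq (F : ℤ⟦X⟧) (h0 : coeff 0 F = 1) (hF : F = rho * dbl F) :
    ∀ n ≤ 34, coeff n F = fF n := by
  intro n
  induction n using Nat.strong_induction_on with
  | _ n ih =>
    intro hn
    rcases n with _ | n
    · rw [h0, f_check0]
    · rw [hF, coeff_mul_dbl, f_check n (by omega)]
      refine Finset.sum_congr rfl fun j hj => ?_
      have hj' := Finset.mem_range.mp hj
      rw [coeff_rho_eq _ (by omega), ih j (by omega) (by omega)]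

end Pool.Agent.Helper19_BinPart
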