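import Pool.Agent.Helper19_BinPart.Compute

/-!
Quasi-multiplicativity modulo powers of two of the coefficients of `G`, and the final induction.
-/

open PowerSeries

namespace Pool.Agent.Helper19_BinPart

lemma coeff_int_mul (a : ℤ) (f : ℤ⟦X⟧) (n : ℕ) : coeff n ((a : ℤ⟦X⟧) * f) = a * coeff n f := by
  have : ((a : ℤ) : ℤ⟦X⟧) = PowerSeries.C a := by simp
  rw [this, PowerSeries.coeff_C_mul]

lemma coeff_two_pow_mul (k : ℕ) (f : ℤ⟦X⟧) (n : ℕ) : coeff n (2 ^ k * f) = 2 ^ k * coeff n f := by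
  rw [two_pow_cast, coeff_int_mul]

lemma coeff_zero_mul' (f h : ℤ⟦X⟧) : coeff 0 (f * h) = coeff 0 f * coeff 0 h := by
  simp

lemma coeff_one_mul' (f h : ℤ⟦X⟧) :
    coeff 1 (f * h) = coeff 0 f * coeff 1 h + coeff 1 f * coeff 0 h := by
  rw [PowerSeries.coeff_mul]
  simp [Finset.Nat.antidiagonal_succ]

section
variable {G : ℤ⟦X⟧} (hG : G = g * dbl G) (hG0 : coeff 0 G = 1)

include hG

lemma coeff_sec_G (c : ℕ) (hc : c = 0 ∨ c = 1) (h : ℤ⟦X⟧) (n : ℕ) :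
    coeff (2 * n + c) (h * G) = coeff n (L c h * G) := by
  have e : h * G = (g * h) * dbl G := by
    conv_lhs => rw [hG]
    ring
  rw [e, ← coeff_sec, L_apply]
  rcases hc with rfl | rfl
  · rw [sec_zero_mul_dbl]
  · rw [sec_one_mul_dbl]

lemma coeff_rep (a : ℕ) : ∀ n0 < 2 ^ a, ∀ h ∈ W, ∃ h' ∈ W,
    ∀ N : ℕ, coeff (2 ^ a * N + n0) (h * G) = coeff N (h' * G) := by
  induction a with
  | zero =>
    intro n0 hn0 h hh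
    refine ⟨h, hh, fun N => ?_⟩
    have : n0 = 0 := by simpa using hn0
    subst this
    simp
  | succ a ih =>
    intro n0 hn0 h hh
    have hc : n0 % 2 = 0 ∨ n0 % 2 = 1 := by omega
    obtain ⟨h', hh', H⟩ := ih (n0 / 2) (by rw [pow_succ] at hn0; omega) (L (n0 % 2) h)
      (L_mem_W _ hc hh)
    refine ⟨h', hh', fun N => ?_⟩
    rw [← H N, ← coeff_sec_G hG _ hc]
    have e1 : 2 ^ (a + 1) * N = 2 * (2 ^ a * N) := by ring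
    have e2 : 2 ^ (a + 1) * N + n0 = 2 * (2 ^ a * N + n0 / 2) + n0 % 2 := by omega
    rw [e2]

lemma coeff_iter (b : ℕ) (h : ℤ⟦X⟧) (N : ℕ) :
    coeff (2 ^ b * N) (h * G) = coeff N ((L 0)^[b] h * G) := by
  induction b generalizing h with
  | zero => simp
  | succ b ih =>
    rw [Function.iterate_succ_apply, ← ih, ← coeff_sec_G hG 0 (Or.inl rfl)]
    have e1 : 2 ^ (b + 1) * N = 2 * (2 ^ b * N) + 0 := by ring
    rw [e1]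

lemma quasi (J : ℕ) (h : ℤ⟦X⟧) (hh : h ∈ W) : ∃ b0 : ℕ, ∀ N : ℕ, 2 ^ b0 ∣ N →
    (2 : ℤ) ^ J ∣ coeff N (h * G) - coeff 0 h * coeff N G := by
  obtain ⟨b0, hb⟩ := small_of_mem J (h - ((coeff 0 h : ℤ) : ℤ⟦X⟧))
    (W.sub_mem hh (V_le_W (int_mem_V _))) (by rw [map_sub, coeff_zero_intCast, sub_self])
  obtain ⟨k, hk⟩ := hb b0 le_rfl
  refine ⟨b0, ?_⟩
  rintro _ ⟨M, rfl⟩
  have h1 := coeff_iter hG b0 (h - ((coeff 0 h : ℤ) : ℤ⟦X⟧)) M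
  rw [hk, sub_mul, map_sub, coeff_int_mul, mul_assoc, coeff_two_pow_mul] at h1
  exact ⟨coeff M (k * G), h1⟩

include hG0

lemma quasi2 (J a n0 : ℕ) (hn0 : n0 < 2 ^ a) : ∃ b0 : ℕ, ∀ N : ℕ, 2 ^ b0 ∣ N →
    (2 : ℤ) ^ J ∣ coeff (2 ^ a * N + n0) G - coeff n0 G * coeff N G := by
  obtain ⟨h', hh', H⟩ := coeff_rep hG a n0 hn0 1 W.one_mem
  simp only [one_mul] at H
  obtain ⟨b0, hb⟩ := quasi hG J h' hh'
  refine ⟨b0, fun N hN => ?_⟩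
  have h0 := H 0
  rw [mul_zero, zero_add, coeff_zero_mul', hG0, mul_one] at h0
  rw [H N, h0]
  exact hb N hN

omit hG0 in
lemma conv (J : ℕ) : ∃ b0 : ℕ, 2 ≤ b0 ∧ ∀ b, b0 ≤ b →
    (2 : ℤ) ^ J ∣ coeff (2 ^ b) G - coeff (2 ^ b0) G := by
  obtain ⟨b0, hb⟩ := small_of_mem J (L 0 1 - 1)
    (W.sub_mem (L_mem_W 0 (Or.inl rfl) W.one_mem) W.one_mem)
    (by rw [map_sub, coeff_zero_L, sub_self])
  have step : ∀ b, b0 ≤ b → (2 : ℤ) ^ J ∣ coeff (2 ^ (b + 1)) G - coeff (2 ^ b) G := by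
    intro b hb'
    obtain ⟨k, hk⟩ := hb b hb'
    have h1 := coeff_iter hG (b + 1) 1 1
    have h2 := coeff_iter hG b 1 1
    rw [mul_one, one_mul] at h1 h2
    rw [h1, h2, Function.iterate_succ_apply, ← map_sub, ← sub_mul, ← iterate_map_sub, hk,
      mul_assoc, coeff_two_pow_mul]
    exact ⟨coeff 1 (k * G), rfl⟩
  refine ⟨b0 + 2, by omega, fun b hb' => ?_⟩
  induction b, hb' using Nat.le_induction with
  | base => simp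
  | succ b hb' ih =>
    have := dvd_add (step b (by omega)) ih
    simpa using this

end

/-- congruence modulo `2^13` of power series -/
def Cong (f f' : ℤ⟦X⟧) : Prop := ∃ k : ℤ⟦X⟧, f = f' + 2 ^ 13 * k

lemma E_cong : ∃ k : ℤ⟦X⟧, E = 1 - 2 ^ 11 * (Z * (1 - Z)) + 2 ^ 12 * (Z * (1 - Z)) ^ 2 + 2 ^ 13 * k := by
  have hE : E = (1 - 4 * (Z * (1 - Z))) ^ (2 ^ 9) := by
    unfold E
    have h : (1 + X) * Z = 2 * Z - 1 := by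
      linear_combination (-1 : ℤ⟦X⟧) * one_sub_X_mul_Z
    rw [h, show (1024 : ℕ) = 2 * 2 ^ 9 by norm_num, pow_mul]
    congr 1
    ring
  have key : ∀ i : ℕ, ∃ k : ℤ⟦X⟧, (1 - 4 * (Z * (1 - Z))) ^ (2 ^ (i + 1)) =
      1 - 2 ^ (i + 3) * (Z * (1 - Z)) + 2 ^ (i + 4) * (Z * (1 - Z)) ^ 2 + 2 ^ (i + 5) * k := by
    intro i
    induction i with
    | zero => exact ⟨0, by ring⟩
    | succ i ih =>
      obtain ⟨k, h⟩ := ih
      rw [pow_succ 2 (i + 1), pow_mul, h]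
      generalize Z * (1 - Z) = w
      -- (1 - 2^(i+3) w + 2^(i+4) w^2 + 2^(i+5) k)^2
      refine ⟨k + 2 ^ i * w ^ 2 + 2 ^ (i + 2) * w ^ 4 + 2 ^ (i + 4) * k ^ 2 - 2 ^ (i + 2) * w ^ 3
        - 2 ^ (i + 3) * w * k + 2 ^ (i + 4) * w ^ 2 * k, ?_⟩
      ring
  obtain ⟨k, h⟩ := key 8
  exact ⟨k, by rw [hE, h]⟩

lemma sec_zero_Z2 : sec 0 (Z ^ 2) = 2 * Z ^ 2 - Z := by
  have := sec_Z_rec 0 (Or.inl rfl) 0
  rw [zero_add, zero_add, pow_zero, pow_one, sec_zero_one, sec_zero_Z] at this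
  rw [this]; ring

lemma sec_zero_Z3 : sec 0 (Z ^ 3) = 4 * Z ^ 3 - 3 * Z ^ 2 := by
  have := sec_Z_rec 0 (Or.inl rfl) 1
  rw [show 1 + 2 = 3 by norm_num, show 1 + 1 = 2 by norm_num, pow_one, sec_zero_Z, sec_zero_Z2] at this
  rw [this]; ring

lemma Z_pow_mul (i : ℕ) : (1 - X) * Z ^ (i + 1) = Z ^ i := by
  linear_combination (Z ^ i) * one_sub_X_mul_Z

lemma L_zero_one_cong : ∃ k : ℤ⟦X⟧, L 0 1 = 1 - 2 ^ 11 - 2 ^ 11 * Z + 2 ^ 12 * Z ^ 2 + 2 ^ 13 * k := by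
  obtain ⟨k, hk⟩ := E_cong
  have e1 : g * 1 = (1 - X) + 2 ^ 11 * (Z ^ 1) + 2 ^ 11 * (-1) + 2 ^ 12 * (Z ^ 1) + 2 ^ 12 * (Z ^ 3)
      + 2 ^ 13 * (-Z ^ 2 + (1 - X) * k) := by
    rw [mul_one, g_eq, hk]
    linear_combination (-(2 : ℤ⟦X⟧) ^ 11 * (1 - Z) + 2 ^ 12 * (1 - Z) ^ 2 * Z) * one_sub_X_mul_Z
  refine ⟨2 * Z ^ 3 - 2 * Z ^ 2 + Z + sec 0 (-Z ^ 2 + (1 - X) * k), ?_⟩
  rw [L_apply, e1]
  simp only [map_add, sec_two_pow]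
  rw [sec_zero_one_sub_X, pow_one, sec_zero_Z, map_neg, sec_zero_one, sec_zero_Z3]
  ring

lemma L_zero_Z_cong : ∃ k : ℤ⟦X⟧, L 0 Z = 1 + 2 ^ 11 * k := by
  obtain ⟨e, _, hE⟩ := E_struct
  refine ⟨sec 0 (Z * e), ?_⟩
  rw [L_apply, g_mul_Z, hE, map_add, sec_two_pow, sec_zero_one]

lemma L_zero_Z2_cong : ∃ k : ℤ⟦X⟧, L 0 (Z ^ 2) = Z + 2 ^ 11 * k := by
  obtain ⟨e, _, hE⟩ := E_struct
  refine ⟨sec 0 (Z * (Z * e)), ?_⟩
  rw [L_apply, pow_two, ← mul_assoc, g_mul_Z, hE, ← sec_two_pow]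
  rw [show (1 + 2 ^ 11 * (Z * e)) * Z = Z + 2 ^ 11 * (Z * (Z * e)) by ring, map_add, sec_zero_Z]

/-- the fixed point modulo `2^13` -/
noncomputable def Qf : ℤ⟦X⟧ := 1 - 3 * 2 ^ 11 + 2 ^ 11 * Z + 2 ^ 12 * Z ^ 2

lemma L_lin (a b c : ℤ) (k : ℤ⟦X⟧) :
    L 0 ((a : ℤ⟦X⟧) + (b : ℤ⟦X⟧) * Z + (c : ℤ⟦X⟧) * Z ^ 2 + 2 ^ 13 * k) =
      (a : ℤ⟦X⟧) * L 0 1 + (b : ℤ⟦X⟧) * L 0 Z + (c : ℤ⟦X⟧) * L 0 (Z ^ 2) + 2 ^ 13 * L 0 k := by
  rw [map_add, map_add, map_add, L_two_pow, L_mul_int, L_mul_int]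
  congr 3
  rw [← L_mul_int, mul_one]

lemma iter_L_cong (b : ℕ) (hb : 2 ≤ b) : Cong ((L 0)^[b] 1) Qf := by
  obtain ⟨k1, h1⟩ := L_zero_one_cong
  obtain ⟨k2, h2⟩ := L_zero_Z_cong
  obtain ⟨k3, h3⟩ := L_zero_Z2_cong
  induction b, hb using Nat.le_induction with
  | base =>
    have e : L 0 1 = (((1 - 2 ^ 11 : ℤ) : ℤ⟦X⟧)) + ((-2 ^ 11 : ℤ) : ℤ⟦X⟧) * Z
        + ((2 ^ 12 : ℤ) : ℤ⟦X⟧) * Z ^ 2 + 2 ^ 13 * k1 := by
      rw [h1]; push_cast; ring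
    have e2 : (L 0)^[2] 1 = L 0 (L 0 1) := rfl
    rw [e2]
    conv_lhs => rw [e]
    rw [L_lin, h1, h2, h3]
    unfold Cong Qf
    push_cast
    refine ⟨k1 - 2 ^ 11 * k1 + 2 ^ 9 + 2 ^ 9 * Z - 2 ^ 10 * Z ^ 2 - 2 ^ 9 * k2 + 2 ^ 10 * k3
      + L 0 k1, ?_⟩
    ring
  | succ b hb ih =>
    obtain ⟨k, hk⟩ := ih
    rw [Function.iterate_succ_apply', hk]
    have e : Qf + 2 ^ 13 * k = (((1 - 3 * 2 ^ 11 : ℤ) : ℤ⟦X⟧)) + ((2 ^ 11 : ℤ) : ℤ⟦X⟧) * Z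
        + ((2 ^ 12 : ℤ) : ℤ⟦X⟧) * Z ^ 2 + 2 ^ 13 * k := by
      unfold Qf; push_cast; ring
    rw [e, L_lin, h1, h2, h3]
    unfold Cong Qf
    push_cast
    refine ⟨k1 - 3 * 2 ^ 11 * k1 + 3 * 2 ^ 9 + 3 * 2 ^ 9 * Z - 3 * 2 ^ 10 * Z ^ 2 + 2 ^ 9 * k2
      + 2 ^ 10 * k3 + L 0 k, ?_⟩
    ring

section
variable {G : ℤ⟦X⟧} (hG : G = g * dbl G) (hG0 : coeff 0 G = 1)

include hG hG0

lemma coeff_one_G : coeff 1 G = 2047 := by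
  have hZ0 : coeff 0 Z = 1 := by simp [Z]
  have hZ1 : coeff 1 Z = 1 := by simp [Z]
  have h := coeff_mul_dbl g G 1
  rw [← hG] at h
  rw [h]
  simp only [Nat.reduceDiv, zero_add, Finset.range_one, Finset.sum_singleton, mul_zero, tsub_zero]
  rw [hG0, mul_one]
  have h2 := coeff_one_mul' g Z
  have h3 : coeff 1 E = 2048 := by
    have hp : ∀ n : ℕ, coeff 1 (((1 + X) * Z : ℤ⟦X⟧) ^ n) = 2 * n ∧
        coeff 0 (((1 + X) * Z : ℤ⟦X⟧) ^ n) = 1 := by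
      have h5 : coeff 0 ((1 + X) * Z) = 1 := by rw [coeff_zero_mul', hZ0]; simp
      have h6 : coeff 1 ((1 + X) * Z) = 2 := by
        rw [coeff_one_mul', hZ0, hZ1]
        simp [PowerSeries.coeff_one, PowerSeries.coeff_X]
      intro n
      induction n with
      | zero => constructor <;> simp [PowerSeries.coeff_one]
      | succ n ih =>
        rw [pow_succ]
        generalize ((1 + X) * Z : ℤ⟦X⟧) ^ n = A at ih ⊢
        generalize ((1 + X) * Z : ℤ⟦X⟧) = B at h5 h6 ⊢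
        rw [coeff_one_mul', coeff_zero_mul', ih.1, ih.2, h5, h6]
        exact ⟨by push_cast; ring, by norm_num⟩
    have := (hp 1024).1
    rw [E, this]; norm_num
  rw [g_mul_Z, h3, coeff_zero_g, hZ0, hZ1] at h2
  linarith

lemma coeff_two_pow_G (b : ℕ) (hb : 2 ≤ b) : (2 : ℤ) ^ 13 ∣ coeff (2 ^ b) G - (2 ^ 12 - 1) := by
  obtain ⟨k, hk⟩ := iter_L_cong b hb
  have h1 := coeff_iter hG b 1 1
  rw [mul_one, one_mul, hk] at h1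
  rw [h1]
  have e : (Qf + 2 ^ 13 * k) * G = ((1 - 3 * 2 ^ 11 : ℤ) : ℤ⟦X⟧) * G + ((2 ^ 11 : ℤ) : ℤ⟦X⟧) * (Z * G)
      + ((2 ^ 12 : ℤ) : ℤ⟦X⟧) * (Z * (Z * G)) + ((2 ^ 13 : ℤ) : ℤ⟦X⟧) * (k * G) := by
    unfold Qf; push_cast; ring
  have hZ : ∀ H : ℤ⟦X⟧, coeff 1 (Z * H) = coeff 1 H + coeff 0 H ∧ coeff 0 (Z * H) = coeff 0 H := by
    intro H
    constructor
    · rw [coeff_one_mul']
      simp [Z]
    · rw [coeff_zero_mul']; simp [Z]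
  rw [e]
  simp only [map_add, coeff_int_mul]
  rw [(hZ (Z * G)).1, (hZ G).1, (hZ G).2, coeff_one_G hG hG0, hG0]
  refine ⟨coeff 1 (k * G) + (2047 - 3 * 2 ^ 11 * 2047 + 2 ^ 11 * 2048 + 2 ^ 12 * 2049 - (2 ^ 12 - 1)) / 2 ^ 13, ?_⟩
  norm_num
  ring

lemma exists_pow (J : ℕ) : ∃ y : ℤ, (2 : ℤ) ^ 13 ∣ y - (2 ^ 12 - 1) ∧
    ∀ s b : ℕ, ∃ N : ℕ, 2 ^ b ∣ N ∧ (2 : ℤ) ^ J ∣ coeff N G - y ^ s := by
  obtain ⟨b0, hb2, hb⟩ := conv hG J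
  refine ⟨coeff (2 ^ b0) G, coeff_two_pow_G hG hG0 b0 hb2, ?_⟩
  intro s
  induction s with
  | zero =>
    intro b
    exact ⟨0, dvd_zero _, by rw [hG0, pow_zero, sub_self]; exact dvd_zero _⟩
  | succ s ih =>
    intro b
    obtain ⟨N, hN1, hN2⟩ := ih b
    have hlt : N < 2 ^ (N + b) := lt_of_lt_of_le N.lt_two_pow_self
      (Nat.pow_le_pow_right (by norm_num) (Nat.le_add_right _ _))
    obtain ⟨b1, hb1⟩ := quasi2 hG hG0 J (N + b) N hlt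
    refine ⟨2 ^ (N + b) * 2 ^ (max b1 b0) + N, ?_, ?_⟩
    · refine dvd_add (Dvd.dvd.mul_right (pow_dvd_pow 2 (Nat.le_add_left _ _)) _) hN1
    · have e1 := hb1 (2 ^ (max b1 b0)) (pow_dvd_pow 2 (le_max_left _ _))
      have e2 := hb (max b1 b0) (le_max_right _ _)
      obtain ⟨u, hu⟩ := e1
      obtain ⟨v, hv⟩ := e2
      obtain ⟨w, hw⟩ := hN2
      refine ⟨u + w * coeff (2 ^ (max b1 b0)) G + coeff (2 ^ b0) G ^ s * v, ?_⟩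
      rw [pow_succ]
      linear_combination hu + coeff (2 ^ (max b1 b0)) G * hw + coeff (2 ^ b0) G ^ s * hv

end

lemma pow_lift {y : ℤ} (hy : (2 : ℤ) ^ 13 ∣ y - (2 ^ 12 - 1)) (l : ℕ) :
    ∃ u : ℤ, y ^ (2 ^ (l + 1)) = 1 + 2 ^ (13 + l) * (2 * u + 1) := by
  induction l with
  | zero =>
    obtain ⟨t, ht⟩ := hy
    have : y = 2 ^ 12 - 1 + 2 ^ 13 * t := by linarith
    subst this
    refine ⟨-t - 1 + 2 ^ 10 * (1 + 2 * t) ^ 2, ?_⟩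
    ring
  | succ l ih =>
    obtain ⟨u, hu⟩ := ih
    refine ⟨u + 2 ^ (11 + l) * (2 * u + 1) ^ 2, ?_⟩
    rw [pow_succ 2 (l + 1), pow_mul, hu]
    ring

section
variable {G : ℤ⟦X⟧} (hG : G = g * dbl G) (hG0 : coeff 0 G = 1)
include hG

lemma F_eq : (1 - X) * G = rho * dbl ((1 - X) * G) := by
  rw [map_mul, map_sub, map_one, dbl_X]
  have hg : (1 - X) * g = (1 + X) * rho * (1 - X) := by
    rw [g, rho, mul_pow, show (1024 : ℕ) = 1023 + 1 by norm_num, pow_succ]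
    generalize (1 + X : ℤ⟦X⟧) ^ 1023 = A
    generalize Z ^ 1023 = B
    ring
  conv_lhs => rw [hG]
  linear_combination (dbl G) * hg

include hG0

lemma base_case : (2 : ℤ) ^ 24 ∣ coeff 34 ((1 - X) * G) - 2 ^ 11 := by
  have h0 : coeff 0 ((1 - X) * G) = 1 := by
    rw [coeff_zero_mul', hG0]; simp
  rw [coeff_F_eq _ h0 (F_eq hG) 34 le_rfl]
  exact f_34

omit hG hG0 in
lemma coeff_one_sub_X_mul (n : ℕ) (hn : 1 ≤ n) :
    coeff n ((1 - X) * G) = coeff n G - coeff (n - 1) G := by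
  obtain ⟨m, rfl⟩ : ∃ m, n = m + 1 := ⟨n - 1, by omega⟩
  rw [sub_mul, one_mul, map_sub, PowerSeries.coeff_succ_X_mul, Nat.add_sub_cancel]

/-- Main theorem of the helper file. -/
theorem main_lift (J : ℕ) : ∃ n : ℕ, 1 ≤ n ∧
    (2 : ℤ) ^ (24 + J) ∣ coeff n ((1 - X) * G) - 2 ^ 11 := by
  induction J with
  | zero => exact ⟨34, by norm_num, base_case hG hG0⟩
  | succ J ih =>
    obtain ⟨n, hn, t, ht⟩ := ih
    rcases Int.even_or_odd' t with ⟨r, rfl | rfl⟩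
    · refine ⟨n, hn, r, ?_⟩
      rw [ht]; ring
    · obtain ⟨y, hy, H⟩ := exists_pow hG hG0 (24 + (J + 1))
      obtain ⟨u, hu⟩ := pow_lift hy J
      have hlt : n < 2 ^ n := n.lt_two_pow_self
      obtain ⟨b1, hb1⟩ := quasi2 hG hG0 (24 + (J + 1)) n n hlt
      obtain ⟨b2, hb2⟩ := quasi2 hG hG0 (24 + (J + 1)) n (n - 1) (by omega)
      obtain ⟨N, hN, hN2⟩ := H (2 ^ (J + 1)) (max b1 b2)
      have e1 := hb1 N (dvd_trans (pow_dvd_pow 2 (le_max_left _ _)) hN)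
      have e2 := hb2 N (dvd_trans (pow_dvd_pow 2 (le_max_right _ _)) hN)
      refine ⟨2 ^ n * N + n, by omega, ?_⟩
      rw [coeff_one_sub_X_mul _ (by omega), Nat.add_sub_assoc hn]
      rw [coeff_one_sub_X_mul _ hn] at ht
      obtain ⟨a1, ha1⟩ := e1
      obtain ⟨a2, ha2⟩ := e2
      obtain ⟨a3, ha3⟩ := hN2
      rw [hu] at ha3
      have hc : coeff n G - coeff (n - 1) G = 2 ^ 11 + 2 ^ (24 + J) * (2 * r + 1) := by linarith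
      refine ⟨a1 - a2 + (coeff n G - coeff (n - 1) G) * a3 + (r + u + 1)
        + 2 ^ (J + 12) * (2 * r + 1) * (2 * u + 1), ?_⟩
      have : coeff (2 ^ n * N + n) G - coeff (2 ^ n * N + (n - 1)) G - 2 ^ 11
          = 2 ^ (24 + (J + 1)) * (a1 - a2) + (coeff n G - coeff (n - 1) G) * coeff N G - 2 ^ 11 := by
        linear_combination ha1 - ha2
      rw [this]
      have h3 : coeff N G = 1 + 2 ^ (13 + J) * (2 * u + 1) + 2 ^ (24 + (J + 1)) * a3 := by linarith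
      rw [h3, hc]
      ring

end

end Pool.Agent.Helper19_BinPart
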